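import Pool.Agent.V11273.PV.G22
import Pool.Agent.TH813.EKPer

/-!
# The elliptico-toric conjecture in bounded degree and height at almost all algebraic points of all analytic families of
several variables

Let `Λ_z` be a family of lattices with periods `ω₁(z), ω₂(z)`, analytic functions of `d ≥ 1` variables on a nonempty connected
open set `U` of `ℂ^d` whose quotient is not constant, let `p_1, …, p_n` be analytic functions on `U` with `p_i(z) ∉ Λ_z` which
are independent modulo the lattices (no nontrivial combination `∑ m_i p_i(z)` with integral coefficients is in `Λ_z` for all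
`z`), and let `t_1, …, t_s` be analytic functions on `U` no nontrivial combination of which with integral coefficients is
constant. There is no other condition on these functions; for example `U` may be an open set of the space of all
`(ω₁, ω₂, p, t)`, or of the space of all `(g₂, g₃, ℘(p), exp(t))`, or anything in between.

For `z ∈ U` the elliptico-toric conjecture says that in general (for independent `2 π i, t_k(z)`, and `p_i(z)` independent
modulo `ℚ Λ_z`, without complex multiplication) the transcendence degree of the field generated by the numbers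

  `ω₁, ω₂, η₁, η₂, g₂, g₃`, `p_i, ℘(p_i), ζ(p_i)`, `t_k, exp(t_k)`

is at least `4 + 2 n + s`, hence at least `3 + 2 n + s` over `ℚ(π)`. We prove that in bounded degree and height for almost all
algebraic points `z`: one can choose `3 + 2 n + s` of these functions (without `η₂`) such that at all points `z` with
coordinates of height at most `T` in a number field of degree at most `ω T`, outside of a sparse set, the chosen numbers satisfy
no polynomial relation of degree at most `ω T` and height at most `T ^ ω T`, not even with coefficients which are combinations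
of arbitrary fixed complex numbers `ξ_i` (for instance of the powers of `π`). Here `ω T → ∞`.
-/

set_option autoImplicit false

open Filter NumberField
open scoped PeriodPair

namespace Pool.Agent.Results.MP_8da9ea_nt.AllAnalyticFamilies

/-- The Weierstrass zeta function `ζ(z) = ∑ (1/(z-l) + 1/l + z/l²)`, the sum over the lattice (the summand of `l = 0` is
`1/z`, as `1/0 = 0`). -/
noncomputable def ζ (L : PeriodPair) (z : ℂ) : ℂ := ∑' l : L.lattice, (1 / (z - l) + 1 / l + z / l ^ 2)

/-- An analytic family of lattices with points and exponents on an open set of `ℂ^X`. -/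
structure Family {X : Type} [Fintype X] (U : Set (X → ℂ)) {n s : ℕ} (Λ : (X → ℂ) → PeriodPair)
    (p : Fin n → (X → ℂ) → ℂ) (t : Fin s → (X → ℂ) → ℂ) : Prop where
  isOpen : IsOpen U
  isPreconnected : IsPreconnected U
  nonempty : U.Nonempty
  /-- the lattice depends analytically on `z` -/
  analytic₁ : AnalyticOnNhd ℂ (fun z => (Λ z).ω₁) U
  analytic₂ : AnalyticOnNhd ℂ (fun z => (Λ z).ω₂) U
  /-- the quotient of the periods is not constant -/
  nonconstant : ∀ c : ℂ, ∃ z ∈ U, (Λ z).ω₂ / (Λ z).ω₁ ≠ c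
  analytic_p : ∀ i, AnalyticOnNhd ℂ (p i) U
  notMem : ∀ i, ∀ z ∈ U, p i z ∉ (Λ z).lattice
  /-- the points are independent modulo torsion -/
  independent_p : ∀ m : Fin n → ℤ, m ≠ 0 → ∃ z ∈ U, ∑ i, (m i : ℂ) * p i z ∉ (Λ z).lattice
  analytic_t : ∀ k, AnalyticOnNhd ℂ (t k) U
  /-- no nontrivial combination with integral coefficients of the `t_k` is constant -/
  independent_t : ∀ m : Fin s → ℤ, m ≠ 0 → ∀ b : ℂ, ∃ z ∈ U, ∑ k, (m k : ℂ) * t k z ≠ b

/-- The names of the functions `ω₁, ω₂, η₁, g₂, g₃`, and `p_i`, `ζ(p_i)`, `℘(p_i)`, `t_k`, `exp(t_k)`, in this order. -/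
abbrev Name (n s : ℕ) : Type := Fin 5 ⊕ (Fin n ⊕ (Fin n ⊕ (Fin n ⊕ (Fin s ⊕ Fin s))))

/-- The values of the functions at the point `z`; here `η₁ = 2 ζ(ω₁ / 2)` (and `η₂` is determined by Legendre's relation
`ω₂ η₁ - ω₁ η₂ = ± 2 π i`). -/
noncomputable def value {X : Type} {n s : ℕ} (Λ : (X → ℂ) → PeriodPair)
    (p : Fin n → (X → ℂ) → ℂ) (t : Fin s → (X → ℂ) → ℂ) (z : X → ℂ) : Name n s → ℂ
  | Sum.inl a => ![(Λ z).ω₁, (Λ z).ω₂, 2 * ζ (Λ z) ((Λ z).ω₁ / 2), (Λ z).g₂, (Λ z).g₃] a
  | Sum.inr (Sum.inl i) => p i z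
  | Sum.inr (Sum.inr (Sum.inl i)) => ζ (Λ z) (p i z)
  | Sum.inr (Sum.inr (Sum.inr (Sum.inl i))) => ℘[Λ z] (p i z)
  | Sum.inr (Sum.inr (Sum.inr (Sum.inr (Sum.inl k)))) => t k z
  | Sum.inr (Sum.inr (Sum.inr (Sum.inr (Sum.inr k)))) => Complex.exp (t k z)

/-- quotients of two integers of `K`, all conjugates of which are at most `T` -/
def HeightLe (K : Type) [Field K] [NumberField K] (T : ℝ) (x : K) : Prop :=
  ∃ a b : 𝓞 K, b ≠ 0 ∧ house (a : K) ≤ T ∧ house (b : K) ≤ T ∧ x = a / b

/-- `S` is covered by at most `m` hypersurfaces of degree at most `D` -/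
def CoveredBy {X : Type} (D m : ℕ) (S : Set (X → ℂ)) : Prop :=
  ∃ Φ : Finset (MvPolynomial X ℂ), Φ.card ≤ m ∧ (∀ P ∈ Φ, P ≠ 0 ∧ P.totalDegree ≤ D) ∧
    ∀ x ∈ S, ∃ P ∈ Φ, MvPolynomial.eval x P = 0

/-- the points of norm at most `k` at distance at least `1 / k` from the complement of `U` -/
def Inner {X : Type} [Fintype X] (U : Set (X → ℂ)) (k : ℕ) : Set (X → ℂ) :=
  {z | ‖z‖ ≤ k ∧ Metric.ball z (k : ℝ)⁻¹ ⊆ U}

/-- the partial degrees of `P` are at most `k`, and its coefficients are `∑ ξ i * c i`, `i < k`, where the `c i` are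
integers of `K`, all conjugates of which are at most `T ^ k` -/
def Small {σ : Type} (K : Type) [Field K] [NumberField K] (io : K →+* ℂ) (k : ℕ) (ξ : Fin k → ℂ) (T : ℝ)
    (P : MvPolynomial σ ℂ) : Prop :=
  (∀ y, P.degreeOf y ≤ k) ∧ ∀ m, ∃ c : Fin k → 𝓞 K, (∀ i (φ : K →+* ℂ), ‖φ (c i : K)‖ ≤ T ^ (k : ℝ)) ∧
    P.coeff m = ∑ i, ξ i * io (c i : K)

/-- The exceptional points `z` over `K`: they are of height at most `T`, in the compact set `Inner U k`, and some nonzero
small polynomial vanishes at the numbers `value Λ p t z a`, `a ∈ A`. -/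
def Exceptional {X : Type} [Fintype X] {n s : ℕ} (U : Set (X → ℂ)) (Λ : (X → ℂ) → PeriodPair)
    (p : Fin n → (X → ℂ) → ℂ) (t : Fin s → (X → ℂ) → ℂ) (A : Finset (Name n s))
    (K : Type) [Field K] [NumberField K] (io : K →+* ℂ) (k : ℕ) (ξ : Fin k → ℂ) (T : ℝ) : Set (X → K) :=
  {z | (∀ i, HeightLe K T (z i)) ∧ (fun i => io (z i)) ∈ Inner U k ∧
    ∃ P : MvPolynomial A ℂ, Small K io k ξ T P ∧
      MvPolynomial.eval (fun a => value Λ p t (fun i => io (z i)) a.1) P = 0 ∧ P ≠ 0}

/-- Let `(Λ, p, t)` be an analytic family on a nonempty connected open set `U` of `ℂ^d`, `d ≥ 1`. There is a set `A` of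
`3 + 2 n + s` of the `5 + 3 n + 2 s` functions `ω₁, ω₂, η₁, g₂, g₃`, `p_i`, `℘(p_i)`, `ζ(p_i)`, `t_k`, `exp(t_k)`, and there is
`ω → ∞`, such that for all large `T`, all number fields `K` of degree at most `ω T`, embedded in `ℂ`, and all complex numbers
`ξ i`, `i < ω T`, the set of the exceptional points lies on at most `T ^ (1 / ω T)` hypersurfaces of degree at most
`T ^ (1 / ω T)`, and has at most `T ^ (1 / ω T) * N ^ (d - 1)` elements, where `N` is the number of the elements of `K` of height
at most `T`. At all other points `z` with coordinates in `K` of height at most `T` (in `Inner U (ω T)`) the numbers given by `A`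
satisfy no nonzero polynomial relation of partial degrees at most `ω T` with coefficients `∑ ξ i * c i`, `c i` integers of `K`
of size at most `T ^ ω T`. -/
theorem result {X : Type} [Fintype X] [DecidableEq X] [Nonempty X] {n s : ℕ} (U : Set (X → ℂ))
    (Λ : (X → ℂ) → PeriodPair) (p : Fin n → (X → ℂ) → ℂ) (t : Fin s → (X → ℂ) → ℂ) (hF : Family U Λ p t) :
    ∃ A : Finset (Name n s), A.card = 3 + (s + 2 * n) ∧
    ∃ (ω : ℝ → ℕ) (T₀ : ℝ), Tendsto ω atTop atTop ∧ Monotone ω ∧ ∀ T, T₀ ≤ T → 0 < ω T ∧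
      ∀ (K : Type) [Field K] [NumberField K], Module.finrank ℚ K ≤ ω T → ∀ (io : K →+* ℂ) (ξ : Fin (ω T) → ℂ),
        CoveredBy ⌊T ^ ((ω T : ℝ)⁻¹)⌋₊ ⌊T ^ ((ω T : ℝ)⁻¹)⌋₊
          ((fun z i => io (z i)) '' Exceptional U Λ p t A K io (ω T) ξ T) ∧
        (Exceptional U Λ p t A K io (ω T) ξ T).Finite ∧
        ((Exceptional U Λ p t A K io (ω T) ξ T).ncard : ℝ) ≤
          T ^ ((ω T : ℝ)⁻¹) * ({x : K | HeightLe K T x}.ncard : ℝ) ^ (Fintype.card X - 1) := by
  have hv : value Λ p t = fun z a => Pool.Agent.V11273.PV.yL Λ p t a z := by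
    funext z a
    rcases a with k | i | i | i | k | k
    · fin_cases k
      · rfl
      · rfl
      · exact (Pool.Agent.TH813.Ell.eta_half (Λ z).ω₁_mem_lattice (Pool.Agent.TH813.Ell.half₁ (Λ z))).symm
      · rfl
      · rfl
    all_goals rfl
  obtain ⟨A, hA, h⟩ := Pool.Agent.V11273.PV.main_fl (U := U) (Λ := Λ) (u := p) (l := t)
    ⟨hF.isOpen, hF.isPreconnected, hF.nonempty, hF.analytic₁, hF.analytic₂, hF.nonconstant, hF.analytic_p, hF.notMem, (by
      intro m hm
      by_contra hne
      obtain ⟨z, hz, hzn⟩ := hF.independent_p m hne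
      exact hzn (hm z hz)), hF.analytic_t, (by
      intro m b hb
      by_contra hne
      obtain ⟨z, hz, hzn⟩ := hF.independent_t m hne b
      exact hzn (hb z hz))⟩
  refine ⟨A, hA, ?_⟩
  unfold Exceptional
  rw [hv]
  exact h

end Pool.Agent.Results.MP_8da9ea_nt.AllAnalyticFamilies
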