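import Pool.Agent.Y916.Sch.EllP
import Pool.Agent.V11168.NX.Box

/-!
# The elliptico-toric inequality in bounded degree for ALL algebraic points near almost all dilated tuples of polynomials

Let `E : y² = 4 x³ - g₂ x - g₃` be an elliptic curve with rational `g₂`, `g₃` and lattice `Λ`. Let `(z, y)` be any point of
the Lie algebra `ℂⁿ × ℂˢ` of `E^n × G_m^s`. We translate it by logarithms of algebraic points `((α_i, β_i))_i, (α_(n+l))_l`:
`p_i = z_i + (a number with ℘ = α_i)`, `t_l = y_l + log α_(n+l)`. The starting file `AlmostAllTranslates` shows that for all tuples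
`α` of algebraic integers of degree at most `m` and size at most `T`, but a proportion `C T^(-c)`, every polynomial relation of
bounded degree over number fields of bounded degree, of any height, between arbitrary constants `w_1, …, w_q` (for instance
`ω₁, ω₂, η₁, η₂`), the numbers `p_i`, `ζ(p_i)`, `t_l` and the numbers `℘(p_i)`, `℘'(p_i)`, `exp(t_l)` is an identity in the
`2 n + s` numbers `p_i`, `ζ(p_i)`, `t_l`.

Here we prove a statement without exceptional tuples. The tuple `α` of algebraic integers of degree `m` is given by its minimal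
polynomials, `n + s` monic integral polynomials of degree `m`; for a tuple `x` of `n + s` monic **real** polynomials
`X^m + ∑ x_(i,j) X^j` we consider the dilates `X^m + ∑ x_(i,j) V^(m-j) X^j` by `V = v_N`, and **all** tuples `α` whose minimal
polynomials have coefficients at distance at most `V^θ` from the coefficients of the dilates. The theorem: if the exponent of
convergence of `v_N ≥ 1` is zero (for example `v_N = 2 ^ N`), then for almost all `x` and all large `N` all these tuples are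
good: there is no exceptional tuple near the dilates of `x`. Here `θ > 0` depends on `n`, `s`, `m`, `Λ`, on the number of the
constants and on the degrees only, and `x` works for all degrees and all `w`, `z`, `y` with coordinates in a given countable
set at the same time. For `m = 1` the `α_i` are rational integers with `|α_i - x_i v_N| ≤ v_N ^ θ`.

Proof: the theorem of `AlmostAllTranslates` and the Borel–Cantelli lemma for boxes of sides `V^(θ - (m - j))`
(`Pool.Agent.V11168.NX.ae_boxes`).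
-/

set_option autoImplicit false

open MeasureTheory Filter
open scoped PeriodPair

namespace Pool.Agent.Results.MP_8da9ea_nt.AlmostAllDirections

/-- The Weierstrass zeta function `ζ(z) = ∑ (1/(z-l) + 1/l + z/l²)`, the sum over the lattice (the summand of `l = 0` is
`1/z`, since `1/0 = 0` in Lean). -/
noncomputable def zeta (Λ : PeriodPair) (z : ℂ) : ℂ := ∑' l : Λ.lattice, (1 / (z - l) + 1 / l + z / l ^ 2)

/-- The numbers `p_i`, `ζ(p_i)` and `t_l`. -/
noncomputable def logarithms (Λ : PeriodPair) {n s : ℕ} (p : Fin n → ℂ) (t : Fin s → ℂ) : Fin n × Fin 2 ⊕ Fin s → ℂ :=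
  Sum.elim (fun a => ![p a.1, zeta Λ (p a.1)] a.2) t

/-- The numbers `℘(p_i)`, `℘'(p_i)` and `exp(t_l)`. -/
noncomputable def points (Λ : PeriodPair) {n s : ℕ} (p : Fin n → ℂ) (t : Fin s → ℂ) : Fin n × Fin 2 ⊕ Fin s → ℂ :=
  Sum.elim (fun a => ![℘[Λ] (p a.1), ℘'[Λ] (p a.1)] a.2) fun l => Complex.exp (t l)

/-- Every polynomial relation of degree `≤ δ` over a number field of degree `≤ d` between the constants `w`, the
`logarithms` and the `points` of `(p, t)` is an identity in the logarithms. -/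
def FreeOverPoints (Λ : PeriodPair) (δ d : ℕ) {q n s : ℕ} (w : Fin q → ℂ) (p : Fin n → ℂ) (t : Fin s → ℂ) : Prop :=
  ∀ L : IntermediateField ℚ ℂ, FiniteDimensional ℚ L → Module.finrank ℚ L ≤ d →
  ∀ P : MvPolynomial (Fin q ⊕ ((Fin n × Fin 2 ⊕ Fin s) ⊕ (Fin n × Fin 2 ⊕ Fin s))) L, P.totalDegree ≤ δ →
  MvPolynomial.aeval (Sum.elim w (Sum.elim (logarithms Λ p t) (points Λ p t))) P = 0 →
  ∀ v : Fin n × Fin 2 ⊕ Fin s → ℂ, MvPolynomial.aeval (Sum.elim w (Sum.elim v (points Λ p t))) P = 0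

/-- `(p, t)` is the sum of `(z, y)` and a logarithm of the point of `E^n × G_m^s` with the coordinates `(α_i, ±β_i)`,
`i = 1..n`, and `α_(n+l)`, `l = 1..s`; no `p_i` is in the lattice. -/
def IsTranslate (Λ : PeriodPair) {n s : ℕ} (z : Fin n → ℂ) (y : Fin s → ℂ) (α : Fin (n + s) → ℂ) (p : Fin n → ℂ)
    (t : Fin s → ℂ) : Prop :=
  (∀ i, p i ∉ Λ.lattice ∧ p i - z i ∉ Λ.lattice ∧ ℘[Λ] (p i - z i) = α (Fin.castAdd s i)) ∧
    ∀ l, Complex.exp (t l - y l) = α (Fin.natAdd n l)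

/-- The `α_i` are algebraic integers of degree `m`, and the coefficients of their minimal polynomials are at distance at most
`r` from the coefficients `x_(i,j) V^(m-j)` of the dilated polynomials `X^m + ∑ x_(i,j) V^(m-j) X^j`. -/
def Near {k : ℕ} (m : ℕ) (x : Fin k × Fin m → ℝ) (V r : ℝ) (α : Fin k → ℂ) : Prop :=
  ∀ i, IsIntegral ℤ (α i) ∧ (minpoly ℤ (α i)).natDegree = m ∧
    ∀ j : Fin m, |((minpoly ℤ (α i)).coeff j : ℝ) - x (i, j) * V ^ (m - (j : ℕ))| ≤ r

/-- The exponent of convergence of the sequence `v` is at most `τ`. -/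
def ConvergenceExponentLe (v : ℕ → ℝ) (τ : ℝ) : Prop := ∀ s : ℝ, τ < s → Summable (fun n : ℕ => (v n) ^ (-s))

lemma sum_wt (k m : ℕ) : ∑ i : Fin k × Fin m, (m - (i.2 : ℕ)) = k * Pool.Agent.Y916.Sl.Mm m := by
  rw [Fintype.sum_prod_type]
  simp only
  rw [Finset.sum_const, Finset.card_univ, Fintype.card_fin, smul_eq_mul]
  rfl

lemma main (Λ : PeriodPair) (a b : ℚ) (ha : Λ.g₂ = a) (hb : Λ.g₃ = b) (n s m : ℕ) (hm : 1 ≤ m) (q δ d : ℕ) :
    ∃ θ : ℝ, 0 < θ ∧ ∀ v : ℕ → ℝ, (∀ N, 1 ≤ v N) → ConvergenceExponentLe v 0 →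
      ∀ (w : Fin q → ℂ) (z : Fin n → ℂ) (y : Fin s → ℂ), ∀ᵐ x : Fin (n + s) × Fin m → ℝ,
      ∃ N₀ : ℕ, ∀ N : ℕ, N₀ ≤ N → ∀ α : Fin (n + s) → ℂ, Near m x (v N) ((v N) ^ θ) α →
        ∀ (p : Fin n → ℂ) (t : Fin s → ℂ), IsTranslate Λ z y α p t → FreeOverPoints Λ δ d w p t := by
  obtain ⟨c, hc, C, hC, h⟩ := Pool.Agent.Y916.Sch.tupP Λ a b ha hb n s q m δ d hm
  set κ : ℕ := Fintype.card (Fin (n + s) × Fin m) with hκ
  have hκ0 : (0 : ℝ) ≤ κ := Nat.cast_nonneg κ
  refine ⟨min 1 (c / (κ + 1)), lt_min one_pos (by positivity), fun v hv hv0 w z y => ?_⟩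
  have hθκ : min 1 (c / ((κ : ℝ) + 1)) * κ < c := by
    calc min 1 (c / ((κ : ℝ) + 1)) * κ ≤ c / ((κ : ℝ) + 1) * κ :=
          mul_le_mul_of_nonneg_right (min_le_right _ _) hκ0
      _ < c / ((κ : ℝ) + 1) * (κ + 1) := by
          apply mul_lt_mul_of_pos_left (by linarith) (by positivity)
      _ = c := by field_simp
  have hae := Pool.Agent.V11168.NX.ae_boxes (ι := Fin (n + s) × Fin m) (P := Fin (n + s) → ℂ) hv (fun s hs => hv0 s hs)
    (fun i => m - (i.2 : ℕ)) (fun i => by have := i.2.2; omega)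
    {α | (∀ i, IsIntegral ℤ (α i) ∧ (minpoly ℤ (α i)).natDegree = m) ∧ Pool.Agent.Y916.Sch.BadP Λ δ d w z y α}
    (fun α i => ((minpoly ℤ (α i.1)).coeff i.2 : ℝ)) (c := c) (by
      intro A
      set e : ℝ := (((n + s) * Pool.Agent.Y916.Sl.Mm m : ℕ) : ℝ) - c with he
      refine ⟨C * max 1 (((A : ℝ) + 2) ^ e), fun V hV => ?_⟩
      have hV0 : 0 < V := by linarith
      have hA0 : (0 : ℝ) ≤ A := Nat.cast_nonneg A
      set T : ℕ := ⌈((A : ℝ) + 1) * V⌉₊ with hT
      have hTl : ((A : ℝ) + 1) * V ≤ T := Nat.le_ceil _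
      have hTu : (T : ℝ) ≤ ((A : ℝ) + 2) * V := by
        have h1 : (T : ℝ) < ((A : ℝ) + 1) * V + 1 := Nat.ceil_lt_add_one (by positivity)
        nlinarith
      have hVT : V ≤ T := by nlinarith
      have hT1 : 1 ≤ T := by
        have : (1 : ℝ) ≤ T := hV.trans hVT
        exact_mod_cast this
      obtain ⟨h1, h2⟩ := h w z y T hT1
      have hsub : {α | α ∈ {α : Fin (n + s) → ℂ | (∀ i, IsIntegral ℤ (α i) ∧ (minpoly ℤ (α i)).natDegree = m) ∧
          Pool.Agent.Y916.Sch.BadP Λ δ d w z y α} ∧ ∀ i : Fin (n + s) × Fin m,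
          |((minpoly ℤ (α i.1)).coeff i.2 : ℝ)| ≤ A * V ^ (m - (i.2 : ℕ))} ⊆
          {α : Fin (n + s) → ℂ | (∀ i, Pool.Agent.Y916.Sl.AInt m T (α i)) ∧ Pool.Agent.Y916.Sch.BadP Λ δ d w z y α} := by
        rintro α ⟨⟨h3, h4⟩, h5⟩
        refine ⟨fun i => ⟨minpoly ℤ (α i), minpoly.monic (h3 i).1, (h3 i).2, minpoly.aeval _ _, fun x hx => ?_⟩, h4⟩
        exact (Pool.Agent.V11168.NX.root_bd (minpoly.monic (h3 i).1) (h3 i).2 hA0 hV0
          (fun j hj => h5 (i, ⟨j, hj⟩)) hx).trans hTl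
      refine ⟨h1.subset hsub, ?_⟩
      rw [sum_wt]
      have h6 : ((({α | α ∈ {α : Fin (n + s) → ℂ | (∀ i, IsIntegral ℤ (α i) ∧ (minpoly ℤ (α i)).natDegree = m) ∧
          Pool.Agent.Y916.Sch.BadP Λ δ d w z y α} ∧ ∀ i : Fin (n + s) × Fin m,
          |((minpoly ℤ (α i.1)).coeff i.2 : ℝ)| ≤ A * V ^ (m - (i.2 : ℕ))} : Set (Fin (n + s) → ℂ)).ncard : ℕ) : ℝ) ≤
          C * (T : ℝ) ^ e := by
        refine le_trans ?_ h2
        exact_mod_cast Set.ncard_le_ncard hsub h1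
      refine h6.trans ?_
      have hT0 : (0 : ℝ) < T := by linarith
      have h7 : (T : ℝ) ^ e ≤ max 1 (((A : ℝ) + 2) ^ e) * V ^ e := by
        rcases le_total 0 e with he0 | he0
        · calc (T : ℝ) ^ e ≤ (((A : ℝ) + 2) * V) ^ e := Real.rpow_le_rpow hT0.le hTu he0
            _ = ((A : ℝ) + 2) ^ e * V ^ e := Real.mul_rpow (by positivity) hV0.le
            _ ≤ max 1 (((A : ℝ) + 2) ^ e) * V ^ e := by
                gcongr
                exact le_max_right _ _
        · calc (T : ℝ) ^ e ≤ V ^ e := Real.rpow_le_rpow_of_nonpos hV0 hVT he0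
            _ = 1 * V ^ e := (one_mul _).symm
            _ ≤ max 1 (((A : ℝ) + 2) ^ e) * V ^ e := by
                gcongr
                exact le_max_left _ _
      calc C * (T : ℝ) ^ e ≤ C * (max 1 (((A : ℝ) + 2) ^ e) * V ^ e) := mul_le_mul_of_nonneg_left h7 hC
        _ = C * max 1 (((A : ℝ) + 2) ^ e) * V ^ e := by ring)
    (θ := min 1 (c / (κ + 1))) (min_le_left _ _) hθκ
  filter_upwards [hae] with x hx
  obtain ⟨N₀, hN₀⟩ := hx
  refine ⟨N₀, fun N hN α hα p t hpt => ?_⟩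
  by_contra hF
  exact hN₀ N hN α ⟨fun i => ⟨(hα i).1, (hα i).2.1⟩, p, t, hpt.1, hpt.2, hF⟩ fun i => (hα i.1).2.2 i.2

/-- **Theorem.** Let `Λ` be a lattice with rational invariants. For all `n`, `s` and `m ≥ 1` there are numbers
`θ (q, δ, d) > 0` such that for every sequence `v_N ≥ 1` with exponent of convergence zero, every countable set `W` of complex
numbers and almost all tuples `x ∈ ℝ^((n+s) m)` of monic real polynomials of degree `m` the following holds. For all `q`, `δ`,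
`d` and all `w`, `z`, `y` with coordinates in `W`, for all large `N` and all tuples `α` of algebraic integers of degree `m` whose
minimal polynomials have coefficients at distance at most `v_N ^ θ (q, δ, d)` from the coefficients of the dilates by `v_N` of
the polynomials `x`, all translates of `(z, y)` by logarithms of the point given by `α` are free over their points and `w`, in
degree `δ` and over number fields of degree at most `d`. -/
theorem result (Λ : PeriodPair) (a b : ℚ) (ha : Λ.g₂ = a) (hb : Λ.g₃ = b) (n s m : ℕ) (hm : 1 ≤ m) :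
    ∃ θ : ℕ → ℕ → ℕ → ℝ, (∀ q δ d, 0 < θ q δ d) ∧ ∀ v : ℕ → ℝ, (∀ N, 1 ≤ v N) → ConvergenceExponentLe v 0 →
      ∀ W : Set ℂ, W.Countable → ∀ᵐ x : Fin (n + s) × Fin m → ℝ,
      ∀ (q δ d : ℕ) (w : Fin q → ℂ) (z : Fin n → ℂ) (y : Fin s → ℂ), (∀ l, w l ∈ W) → (∀ l, z l ∈ W) → (∀ l, y l ∈ W) →
      ∃ N₀ : ℕ, ∀ N : ℕ, N₀ ≤ N → ∀ α : Fin (n + s) → ℂ, Near m x (v N) ((v N) ^ θ q δ d) α →
        ∀ (p : Fin n → ℂ) (t : Fin s → ℂ), IsTranslate Λ z y α p t → FreeOverPoints Λ δ d w p t := by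
  choose θ hθ hθ2 using main Λ a b ha hb n s m hm
  refine ⟨θ, hθ, fun v hv hv0 W hW => ?_⟩
  have h2 : ∀ (q δ d : ℕ), ∀ᵐ x : Fin (n + s) × Fin m → ℝ,
      ∀ u ∈ {w : Fin q → ℂ | ∀ l, w l ∈ W} ×ˢ ({z : Fin n → ℂ | ∀ l, z l ∈ W} ×ˢ {y : Fin s → ℂ | ∀ l, y l ∈ W}),
      ∃ N₀ : ℕ, ∀ N : ℕ, N₀ ≤ N → ∀ α : Fin (n + s) → ℂ, Near m x (v N) ((v N) ^ θ q δ d) α →
        ∀ (p : Fin n → ℂ) (t : Fin s → ℂ), IsTranslate Λ u.2.1 u.2.2 α p t → FreeOverPoints Λ δ d u.1 p t := by
    intro q δ d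
    have hcount := (Set.countable_pi fun _ : Fin q => hW).prod ((Set.countable_pi fun _ : Fin n => hW).prod
      (Set.countable_pi fun _ : Fin s => hW))
    rw [ae_ball_iff hcount]
    rintro ⟨w, z, y⟩ -
    exact hθ2 q δ d v hv hv0 w z y
  simp only [← ae_all_iff] at h2
  have h3 : ∀ᵐ x : Fin (n + s) × Fin m → ℝ, ∀ (q δ d : ℕ),
      ∀ u ∈ {w : Fin q → ℂ | ∀ l, w l ∈ W} ×ˢ ({z : Fin n → ℂ | ∀ l, z l ∈ W} ×ˢ {y : Fin s → ℂ | ∀ l, y l ∈ W}),
      ∃ N₀ : ℕ, ∀ N : ℕ, N₀ ≤ N → ∀ α : Fin (n + s) → ℂ, Near m x (v N) ((v N) ^ θ q δ d) α →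
        ∀ (p : Fin n → ℂ) (t : Fin s → ℂ), IsTranslate Λ u.2.1 u.2.2 α p t → FreeOverPoints Λ δ d u.1 p t := h2
  filter_upwards [h3] with x hx q δ d w z y hw hz hy
  exact hx q δ d (w, z, y) ⟨hw, hz, hy⟩

end Pool.Agent.Results.MP_8da9ea_nt.AlmostAllDirections
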