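import Pool.Agent.Helper264.NT.NearPV2
import Pool.Agent.V11273.PV.G22
import Pool.Agent.TH813.EKPer

/-!
# The elliptico-toric conjecture in bounded degree and height at ALL algebraic points near almost every point, for all
analytic families of lattices, points and exponents

Let `Λ_z` be a family of lattices with periods `ω₁(z), ω₂(z)`, analytic functions of `d ≥ 1` variables on a nonempty connected
open set `U` of `ℂ^d` whose quotient is not constant, let `p_1, …, p_n` be analytic functions on `U` with `p_i(z) ∉ Λ_z` which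
are independent modulo the lattices (no nontrivial combination `∑ m_i p_i(z)` with integral coefficients is in `Λ_z` for all
`z`), and let `t_1, …, t_s` be analytic functions on `U` no nontrivial combination of which with integral coefficients is
constant. There is no other condition on these functions; for example `U` may be an open set of the space of all
`(ω₁, ω₂, p, t)`, or of the space of all `(g₂, g₃, ℘(p), exp(t))`, or anything in between.

For `z ∈ U` the elliptico-toric conjecture says that in general (for independent `2 π i, t_k(z)`, and `p_i(z)` independent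
modulo `ℚ Λ_z`, without complex multiplication) the transcendence degree of the field generated by the numbers

  `ω₁, ω₂, η₁, η₂, g₂, g₃`, `p_i, ℘(p_i), ζ(p_i)`, `t_k, exp(t_k)`

is at least `4 + 2 n + s`, hence at least `3 + 2 n + s` over `ℚ(π)`. One can choose `3 + 2 n + s` of these functions (without
`η₂`) with the following property. There is a set `E` in `ℂ^d` of Hausdorff dimension at most `2 d - 2` such that near every
point `z` of `U` outside of `E` there are no exceptional points: for all `w > 0` (arbitrarily small), all number fields `K`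
and all `k`, for large `T`, at ALL points with coordinates in `K` of height at most `T` at distance at most `T ^ (-w)` from
`z` the chosen numbers satisfy no nonzero polynomial relation of partial degrees at most `k` with coefficients
`∑ ξ i * c i`, `i < k`, `c i` integers of `K` of size at most `T ^ k`, `ξ i` any given complex numbers (for instance the
powers of `π`). For real points `z` the same holds outside of a set in `ℝ^d` of dimension at most `d - 1`.
-/

set_option autoImplicit false

open Filter NumberField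
open scoped PeriodPair ENNReal

namespace Pool.Agent.Results.MP_8da9ea_nt.NearEveryPoint

/-- The Weierstrass zeta function `ζ(z) = ∑ (1/(z-l) + 1/l + z/l²)`, the sum over the lattice (the summand of `l = 0` is
`1/z`, as `1/0 = 0`). -/
noncomputable def ζ (L : PeriodPair) (z : ℂ) : ℂ := ∑' l : L.lattice, (1 / (z - l) + 1 / l + z / l ^ 2)

/-- An analytic family of lattices with points and exponents on an open set of `ℂ^X`. -/
structure Family {X : Type} [Fintype X] (U : Set (X → ℂ)) {n s : ℕ} (Λ : (X → ℂ) → PeriodPair)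
    (p : Fin n → (X → ℂ) → ℂ) (t : Fin s → (X → ℂ) → ℂ) : Prop where
  isOpen : IsOpen U
  isPreconnected : IsPreconnected U
  nonempty : U.Nonempty
  /-- the lattice depends analytically on `z` -/
  analytic₁ : AnalyticOnNhd ℂ (fun z => (Λ z).ω₁) U
  analytic₂ : AnalyticOnNhd ℂ (fun z => (Λ z).ω₂) U
  /-- the quotient of the periods is not constant -/
  nonconstant : ∀ c : ℂ, ∃ z ∈ U, (Λ z).ω₂ / (Λ z).ω₁ ≠ c
  analytic_p : ∀ i, AnalyticOnNhd ℂ (p i) U
  notMem : ∀ i, ∀ z ∈ U, p i z ∉ (Λ z).lattice
  /-- the points are independent modulo torsion -/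
  independent_p : ∀ m : Fin n → ℤ, m ≠ 0 → ∃ z ∈ U, ∑ i, (m i : ℂ) * p i z ∉ (Λ z).lattice
  analytic_t : ∀ k, AnalyticOnNhd ℂ (t k) U
  /-- no nontrivial combination with integral coefficients of the `t_k` is constant -/
  independent_t : ∀ m : Fin s → ℤ, m ≠ 0 → ∀ b : ℂ, ∃ z ∈ U, ∑ k, (m k : ℂ) * t k z ≠ b

/-- The names of the functions `ω₁, ω₂, η₁, g₂, g₃`, and `p_i`, `ζ(p_i)`, `℘(p_i)`, `t_k`, `exp(t_k)`, in this order. -/
abbrev Name (n s : ℕ) : Type := Fin 5 ⊕ (Fin n ⊕ (Fin n ⊕ (Fin n ⊕ (Fin s ⊕ Fin s))))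

/-- The functions with these names; here `η₁ = 2 ζ(ω₁ / 2)` (and `η₂` is determined by Legendre's relation
`ω₂ η₁ - ω₁ η₂ = ± 2 π i`). -/
noncomputable def value {X : Type} {n s : ℕ} (Λ : (X → ℂ) → PeriodPair)
    (p : Fin n → (X → ℂ) → ℂ) (t : Fin s → (X → ℂ) → ℂ) : Name n s → (X → ℂ) → ℂ
  | Sum.inl a => fun z => ![(Λ z).ω₁, (Λ z).ω₂, 2 * ζ (Λ z) ((Λ z).ω₁ / 2), (Λ z).g₂, (Λ z).g₃] a
  | Sum.inr (Sum.inl i) => p i
  | Sum.inr (Sum.inr (Sum.inl i)) => fun z => ζ (Λ z) (p i z)
  | Sum.inr (Sum.inr (Sum.inr (Sum.inl i))) => fun z => ℘[Λ z] (p i z)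
  | Sum.inr (Sum.inr (Sum.inr (Sum.inr (Sum.inl k)))) => t k
  | Sum.inr (Sum.inr (Sum.inr (Sum.inr (Sum.inr k)))) => fun z => Complex.exp (t k z)

/-- quotients of two integers of `K`, all conjugates of which are at most `T` -/
def HeightLe (K : Type) [Field K] [NumberField K] (T : ℝ) (x : K) : Prop :=
  ∃ a b : 𝓞 K, b ≠ 0 ∧ house (a : K) ≤ T ∧ house (b : K) ≤ T ∧ x = a / b

/-- for a number field `K` embedded into `ℂ` by `io`: the partial degrees of `P` are at most `k`, and its coefficients are
`∑ ξ i * c i`, `i < k`, where the `c i` are integers of `K`, all conjugates of which are at most `T ^ k` -/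
def Small {σ : Type} (K : Type) [Field K] [NumberField K] (io : K →+* ℂ) (k : ℕ) (ξ : ℕ → ℂ) (T : ℝ)
    (P : MvPolynomial σ ℂ) : Prop :=
  (∀ y, P.degreeOf y ≤ k) ∧ ∀ m, ∃ c : Fin k → 𝓞 K, (∀ i (φ : K →+* ℂ), ‖φ (c i : K)‖ ≤ T ^ (k : ℝ)) ∧
    P.coeff m = ∑ i : Fin k, ξ i * io (c i : K)

/-- At all points `s` with coordinates in the number field `K` (embedded into `ℂ` by `io`) of height at most `T` and with
`|s i - z i| ≤ T ^ (-w)` for all `i`, no nonzero small polynomial vanishes at the numbers `v a s`. -/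
def NoRelationNear {X S : Type} (v : S → (X → ℂ) → ℂ) (ξ : ℕ → ℂ) (z : X → ℂ) (w : ℝ) (K : Type) [Field K]
    [NumberField K] (io : K →+* ℂ) (k : ℕ) (T : ℝ) : Prop :=
  ∀ s : X → K, (∀ i, HeightLe K T (s i)) → (∀ i, ‖io (s i) - z i‖ ≤ T ^ (-w)) →
    ∀ P : MvPolynomial S ℂ, Small K io k ξ T P →
      MvPolynomial.eval (fun a => v a fun i => io (s i)) P = 0 → P = 0

/-- The numbers `v a s` are independent in bounded degree and height at ALL algebraic points `s` near almost every point of
`U`, `d` being the number of coordinates: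
(1) there is a set `E` in `ℂ ^ d` of Hausdorff dimension at most `2 (d - 1)` such that for all `z ∈ U` outside of `E`, all
`w > 0`, all number fields `K ⊂ ℂ` and all `k`, `NoRelationNear v ξ z w K k T` holds for all large `T`;
(2) there is a set `E` in `ℝ ^ d` of dimension at most `d - 1` such that the same is true for all real `z ∈ U` outside of `E`
and all number fields `K ⊂ ℝ`. -/
def IndependentNearAlmostAll {X S : Type} [Fintype X] (U : Set (X → ℂ)) (v : S → (X → ℂ) → ℂ) (ξ : ℕ → ℂ) : Prop :=
  (∃ E : Set (X → ℂ), dimH E ≤ ((2 * (Fintype.card X - 1) : ℕ) : ℝ≥0∞) ∧ ∀ z ∈ U, z ∉ E → ∀ w : ℝ, 0 < w →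
    ∀ (K : IntermediateField ℚ ℂ) [NumberField K] (k : ℕ), ∀ᶠ T : ℝ in atTop,
      NoRelationNear v ξ z w K (algebraMap K ℂ) k T) ∧
  ∃ E : Set (X → ℝ), dimH E ≤ ((Fintype.card X - 1 : ℕ) : ℝ≥0∞) ∧
    ∀ z : X → ℝ, (fun i => (z i : ℂ)) ∈ U → z ∉ E → ∀ w : ℝ, 0 < w →
    ∀ (K : IntermediateField ℚ ℝ) [NumberField K] (k : ℕ), ∀ᶠ T : ℝ in atTop,
      NoRelationNear v ξ (fun i => (z i : ℂ)) w K (Complex.ofRealHom.comp (algebraMap K ℝ)) k T

/-- Let `(Λ, p, t)` be an analytic family on a nonempty connected open set `U` of `ℂ^d`, `d ≥ 1`. There is a set `A` of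
`3 + 2 n + s` of the `5 + 3 n + 2 s` functions `ω₁, ω₂, η₁, g₂, g₃`, `p_i`, `℘(p_i)`, `ζ(p_i)`, `t_k`, `exp(t_k)` such that for
all complex numbers `ξ i` the numbers given by `A` are independent in bounded degree and height at ALL algebraic points near
every point outside of a set of dimension at most `2 (d - 1)` (complex points), `d - 1` (real points): see
`IndependentNearAlmostAll`. -/
theorem result {X : Type} [Fintype X] [DecidableEq X] [Nonempty X] {n s : ℕ} (U : Set (X → ℂ))
    (Λ : (X → ℂ) → PeriodPair) (p : Fin n → (X → ℂ) → ℂ) (t : Fin s → (X → ℂ) → ℂ) (hF : Family U Λ p t) :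
    ∃ A : Finset (Name n s), A.card = 3 + (s + 2 * n) ∧ ∀ ξ : ℕ → ℂ,
      IndependentNearAlmostAll U (fun (a : A) => value Λ p t a.1) ξ := by
  classical
  have hv : value Λ p t = Pool.Agent.V11273.PV.yL Λ p t := by
    funext a z
    rcases a with k | i | i | i | k | k
    · fin_cases k
      · rfl
      · rfl
      · exact (Pool.Agent.TH813.Ell.eta_half (Λ z).ω₁_mem_lattice (Pool.Agent.TH813.Ell.half₁ (Λ z))).symm
      · rfl
      · rfl
    all_goals rfl
  have hL : Pool.Agent.V11273.PV.FxL U Λ p t :=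
    ⟨hF.isOpen, hF.isPreconnected, hF.nonempty, hF.analytic₁, hF.analytic₂, hF.nonconstant, hF.analytic_p, hF.notMem, (by
      intro m hm
      by_contra hne
      obtain ⟨z, hz, hzn⟩ := hF.independent_p m hne
      exact hzn (hm z hz)), hF.analytic_t, (by
      intro m b hb
      by_contra hne
      obtain ⟨z, hz, hzn⟩ := hF.independent_t m hne b
      exact hzn (hb z hz))⟩
  obtain ⟨A, hA, hAi⟩ := Pool.Agent.V11273.PV.choose_fl hL
  have h1 : ∀ a : A, AnalyticOnNhd ℂ (Pool.Agent.V11273.PV.yL Λ p t a.1) U := fun a =>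
    Pool.Agent.V11273.PV.yL_an hL a.1
  refine ⟨A, hA, fun ξ => ?_⟩
  have h2 := Pool.Agent.Helper264.NT.near_two (S := A) (f := fun a : A => Pool.Agent.V11273.PV.yL Λ p t a.1)
    hF.isPreconnected hF.isOpen hF.nonempty h1 hAi ξ
  rw [hv]
  exact h2

end Pool.Agent.Results.MP_8da9ea_nt.NearEveryPoint
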